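import Pool.Agent.E8helper72.HR.Stm

/-!
# Project HR: the equal level lemma (piece HR1)
-/

set_option autoImplicit false

open MeasureTheory Set Real
open scoped ENNReal NNReal

namespace H55HR

open H72HR (Vr)

/-! ### Lipschitz maps and the measure -/

theorem lip_vol {f : ℝ → ℝ} {S : Set ℝ} {K : ℝ≥0} (h : LipschitzOnWith K f S) :
    volume (f '' S) ≤ K * volume S := by
  have h1 := h.hausdorffMeasure_image_le (d := 1) zero_le_one
  rw [hausdorffMeasure_real] at h1
  simpa using h1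

/-! ### The functions `Vr` -/

theorem one_sub_pos {r : ℝ} (h0 : 0 < r) (h1 : r < 1) (u : ℝ) : 0 < 1 - (r * cos u) ^ 2 := by
  have h2 : cos u ^ 2 ≤ 1 := by nlinarith [sin_sq_add_cos_sq u, sq_nonneg (sin u)]
  have h3 : r ^ 2 < 1 := by nlinarith
  have h4 : (r * cos u) ^ 2 = r ^ 2 * cos u ^ 2 := by ring
  rw [h4]
  nlinarith [sq_nonneg (cos u), sq_nonneg r]

theorem hasDerivAt_Vr {r : ℝ} (h0 : 0 < r) (h1 : r < 1) (u : ℝ) :
    HasDerivAt (Vr r) (r * sin u / √(1 - (r * cos u) ^ 2)) u := by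
  have hp := one_sub_pos h0 h1 u
  have hne1 : r * cos u ≠ -1 := by
    intro h
    rw [h] at hp
    norm_num at hp
  have hne2 : r * cos u ≠ 1 := by
    intro h
    rw [h] at hp
    norm_num at hp
  have h2 : HasDerivAt (fun u => r * cos u) (r * (-sin u)) u := (hasDerivAt_cos u).const_mul r
  have h3 := (Real.hasDerivAt_arccos hne1 hne2).comp u h2
  refine h3.congr_deriv ?_
  ring

theorem continuous_Vr {r : ℝ} (h0 : 0 < r) (h1 : r < 1) : Continuous (Vr r) :=
  continuous_iff_continuousAt.2 fun u => (hasDerivAt_Vr h0 h1 u).continuousAt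

theorem deriv_Vr_le {r : ℝ} (h0 : 0 < r) (h1 : r < 1) (u : ℝ) :
    |r * sin u / √(1 - (r * cos u) ^ 2)| ≤ r := by
  have hp := one_sub_pos h0 h1 u
  have hs : |sin u| ≤ √(1 - (r * cos u) ^ 2) := by
    apply Real.abs_le_sqrt
    have : (r * cos u) ^ 2 ≤ cos u ^ 2 := by
      have h4 : (r * cos u) ^ 2 = r ^ 2 * cos u ^ 2 := by ring
      rw [h4]
      exact mul_le_of_le_one_left (sq_nonneg _) (by nlinarith)
    nlinarith [sin_sq_add_cos_sq u]
  rw [abs_div, abs_mul, abs_of_pos h0, abs_of_nonneg (Real.sqrt_nonneg _),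
    div_le_iff₀ (Real.sqrt_pos.2 hp)]
  exact mul_le_mul_of_nonneg_left hs h0.le

theorem lip_Vr {r : ℝ} (h0 : 0 < r) (h1 : r < 1) (u v : ℝ) : |Vr r u - Vr r v| ≤ r * |u - v| := by
  have h := Convex.norm_image_sub_le_of_norm_hasDerivWithin_le (f := Vr r)
    (f' := fun u => r * sin u / √(1 - (r * cos u) ^ 2)) (s := univ) (C := r)
    (fun x _ => (hasDerivAt_Vr h0 h1 x).hasDerivWithinAt)
    (fun x _ => by rw [Real.norm_eq_abs]; exact deriv_Vr_le h0 h1 x) convex_univ (mem_univ v)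
    (mem_univ u)
  simpa [Real.norm_eq_abs] using h

theorem Vr_zero (r : ℝ) : Vr r 0 = arccos r := by
  unfold Vr
  rw [cos_zero, mul_one]

theorem Vr_pi (r : ℝ) : Vr r (π / 2) = π / 2 := by
  unfold Vr
  rw [cos_pi_div_two, mul_zero, arccos_zero]

theorem Vr_anti {r s u : ℝ} (h : r ≤ s) (hu : u ∈ Icc 0 (π / 2)) : Vr s u ≤ Vr r u := by
  unfold Vr
  apply Real.antitone_arccos
  have hc : 0 ≤ cos u := cos_nonneg_of_mem_Icc ⟨by have := hu.1; have := pi_pos; linarith, hu.2⟩
  exact mul_le_mul_of_nonneg_right h hc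

theorem le_Vr {r u : ℝ} (h : r < 1) (hu : u ∈ Icc 0 (π / 2)) : u ≤ Vr r u := by
  have h1 := Vr_anti h.le hu
  have h2 : Vr 1 u = u := by
    unfold Vr
    rw [one_mul]
    exact arccos_cos hu.1 (by have := hu.2; have := pi_pos; linarith)
  rwa [h2] at h1

/-- `V_ρ - V_σ` is nonincreasing -/
theorem anti_diff {ρ σ : ℝ} (h0 : 0 < ρ) (h1 : ρ < σ) (h2 : σ < 1) :
    AntitoneOn (fun u => Vr ρ u - Vr σ u) (Icc 0 (π / 2)) := by
  have hρ1 : ρ < 1 := h1.trans h2
  have hσ0 : 0 < σ := h0.trans h1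
  apply antitoneOn_of_deriv_nonpos (convex_Icc _ _)
  · exact ((continuous_Vr h0 hρ1).sub (continuous_Vr hσ0 h2)).continuousOn
  · intro u _
    exact ((hasDerivAt_Vr h0 hρ1 u).sub (hasDerivAt_Vr hσ0 h2 u)).differentiableAt.differentiableWithinAt
  · intro u hu
    rw [interior_Icc] at hu
    have hd := ((hasDerivAt_Vr h0 hρ1 u).sub (hasDerivAt_Vr hσ0 h2 u)).deriv
    have hd' : deriv (fun u => Vr ρ u - Vr σ u) u =
        ρ * sin u / √(1 - (ρ * cos u) ^ 2) - σ * sin u / √(1 - (σ * cos u) ^ 2) := hd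
    rw [hd']
    have hsin : 0 ≤ sin u := sin_nonneg_of_nonneg_of_le_pi hu.1.le (by have := hu.2; have := pi_pos; linarith)
    have hp1 := one_sub_pos h0 hρ1 u
    have hp2 := one_sub_pos hσ0 h2 u
    rw [sub_nonpos, div_le_div_iff₀ (Real.sqrt_pos.2 hp1) (Real.sqrt_pos.2 hp2)]
    have key : ρ * √(1 - (σ * cos u) ^ 2) ≤ σ * √(1 - (ρ * cos u) ^ 2) := by
      have hσn : 0 ≤ σ * √(1 - (ρ * cos u) ^ 2) := by positivity
      refine (pow_le_pow_iff_left₀ (by positivity) hσn two_ne_zero).1 ?_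
      rw [mul_pow ρ, mul_pow σ (√_), Real.sq_sqrt hp2.le, Real.sq_sqrt hp1.le]
      have : ρ ^ 2 ≤ σ ^ 2 := by nlinarith
      nlinarith
    nlinarith [mul_le_mul_of_nonneg_right key hsin]

theorem anti_sub {r : ℝ} (h0 : 0 < r) (h1 : r < 1) {u v : ℝ} (huv : u ≤ v) :
    Vr r v - v ≤ Vr r u - u := by
  have h := lip_Vr h0 h1 v u
  have h2 := le_abs_self (Vr r v - Vr r u)
  rw [abs_of_nonneg (by linarith : 0 ≤ v - u)] at h
  nlinarith

theorem strict_sub {r : ℝ} (h0 : 0 < r) (h1 : r < 1) {u v : ℝ} (huv : u < v) :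
    Vr r v - v < Vr r u - u := by
  have h := lip_Vr h0 h1 v u
  have h2 := le_abs_self (Vr r v - Vr r u)
  rw [abs_of_nonneg (by linarith : 0 ≤ v - u)] at h
  nlinarith

/-! ### The relation -/

/-- `g` is the displacement on the middle circle if `x` is the one on the last circle -/
def Rel (ρ σ x g : ℝ) : Prop := ∃ u ∈ Icc 0 (π / 2),
  (x = Vr ρ u - u ∧ g = Vr σ u - u) ∨ (x = -(Vr ρ u - u) ∧ g = -(Vr σ u - u))

theorem rel_mono {ρ σ : ℝ} (h0 : 0 < ρ) (h1 : ρ < σ) (h2 : σ < 1) {x g x' g' : ℝ}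
    (h : Rel ρ σ x g) (h' : Rel ρ σ x' g') (hx : x ≤ x') : g ≤ g' ∧ x - g ≤ x' - g' := by
  have hρ1 : ρ < 1 := h1.trans h2
  have hσ0 : 0 < σ := h0.trans h1
  have anti := anti_diff h0 h1 h2
  -- the positive branch
  have pos : ∀ u ∈ Icc 0 (π / 2), 0 ≤ Vr σ u - u ∧ Vr σ u - u ≤ Vr ρ u - u := by
    intro u hu
    have a1 := le_Vr h2 hu
    have a2 := Vr_anti h1.le hu
    constructor <;> linarith
  have key : ∀ u ∈ Icc 0 (π / 2), ∀ v ∈ Icc 0 (π / 2), Vr ρ u - u ≤ Vr ρ v - v →
      Vr σ u - u ≤ Vr σ v - v ∧ (Vr ρ u - u) - (Vr σ u - u) ≤ (Vr ρ v - v) - (Vr σ v - v) := by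
    intro u hu v hv huv
    have hvu : v ≤ u := by
      by_contra hc
      push Not at hc
      have := strict_sub h0 hρ1 hc
      linarith
    have a1 := anti_sub hσ0 h2 hvu
    have a2 := anti hv hu hvu
    simp only at a2
    constructor <;> linarith
  obtain ⟨u, hu, hb⟩ := h
  obtain ⟨v, hv, hb'⟩ := h'
  have pu := pos u hu
  have pv := pos v hv
  rcases hb with ⟨e1, e2⟩ | ⟨e1, e2⟩
  · rcases hb' with ⟨e3, e4⟩ | ⟨e3, e4⟩
    · have := key u hu v hv (by linarith)
      constructor <;> linarith [this.1, this.2]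
    · constructor <;> linarith [pu.1, pu.2, pv.1, pv.2]
  · rcases hb' with ⟨e3, e4⟩ | ⟨e3, e4⟩
    · constructor <;> linarith [pu.1, pu.2, pv.1, pv.2]
    · have := key v hv u hu (by linarith)
      constructor <;> linarith [this.1, this.2]

theorem rel_exists {ρ σ : ℝ} (h0 : 0 < ρ) (h1 : ρ < σ) (h2 : σ < 1) {x : ℝ}
    (hx : |x| ≤ arccos ρ) : ∃ u ∈ Icc 0 (π / 2), |x| = Vr ρ u - u := by
  have hρ1 : ρ < 1 := h1.trans h2
  have hc : ContinuousOn (fun u => Vr ρ u - u) (Icc 0 (π / 2)) :=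
    ((continuous_Vr h0 hρ1).sub continuous_id).continuousOn
  have hpi : (0 : ℝ) ≤ π / 2 := by have := pi_pos; linarith
  have h := intermediate_value_Icc' hpi hc
  have hmem : |x| ∈ Icc (Vr ρ (π / 2) - π / 2) (Vr ρ 0 - 0) := by
    rw [Vr_pi, Vr_zero]
    constructor
    · rw [sub_self]; exact abs_nonneg x
    · rw [sub_zero]; exact hx
  obtain ⟨u, hu, hu'⟩ := h hmem
  exact ⟨u, hu, hu'.symm⟩

theorem far_exists {ρ : ℝ} (h0 : 0 < ρ) (hρ1 : ρ < 1) {x : ℝ} (hx : arccos ρ < x) (hx' : x ≤ π) :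
    ∃ u ∈ Icc 0 (π / 2), 0 < u ∧ x = Vr ρ u + u := by
  have hc : ContinuousOn (fun u => Vr ρ u + u) (Icc 0 (π / 2)) :=
    ((continuous_Vr h0 hρ1).add continuous_id).continuousOn
  have hpi : (0 : ℝ) ≤ π / 2 := by have := pi_pos; linarith
  have h := intermediate_value_Icc hpi hc
  have hmem : x ∈ Icc (Vr ρ 0 + 0) (Vr ρ (π / 2) + π / 2) := by
    rw [Vr_pi, Vr_zero]
    constructor
    · rw [add_zero]; exact hx.le
    · linarith
  obtain ⟨u, hu, hu'⟩ := h hmem
  have hu'' : Vr ρ u + u = x := hu'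
  refine ⟨u, hu, ?_, hu''.symm⟩
  rcases hu.1.lt_or_eq with h3 | h3
  · exact h3
  · exfalso
    rw [← h3, Vr_zero, add_zero] at hu''
    linarith

/-! ### Distribution functions -/

/-- the distribution function of a set -/
noncomputable def cdf (A : Set ℝ) (x : ℝ) : ℝ := volume.real (A ∩ Iic x)

section cdf

variable {A : Set ℝ} (hA : IsCompact A)
include hA

theorem fin_of (S : Set ℝ) : volume (A ∩ S) ≠ ⊤ :=
  ((measure_mono inter_subset_left).trans_lt hA.measure_lt_top).ne

theorem cdf_mono {x y : ℝ} (h : x ≤ y) : cdf A x ≤ cdf A y :=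
  measureReal_mono (inter_subset_inter_right _ (Iic_subset_Iic.2 h)) (fin_of hA _)

theorem cdf_lip {x y : ℝ} (h : x ≤ y) : cdf A y ≤ cdf A x + (y - x) := by
  have h1 : A ∩ Iic y ⊆ (A ∩ Iic x) ∪ Ioc x y := by
    rintro z ⟨hz, hz'⟩
    by_cases hzx : z ≤ x
    · exact Or.inl ⟨hz, hzx⟩
    · exact Or.inr ⟨not_le.1 hzx, hz'⟩
  have h2 : volume ((A ∩ Iic x) ∪ Ioc x y) ≠ ⊤ :=
    ((measure_union_le _ _).trans_lt (ENNReal.add_lt_top.2 ⟨(fin_of hA _).lt_top, measure_Ioc_lt_top⟩)).ne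
  have h3 := measureReal_mono h1 h2
  have h4 := measureReal_union_le (μ := volume) (A ∩ Iic x) (Ioc x y)
  have h5 : volume.real (Ioc x y) = y - x := by
    rw [measureReal_def, Real.volume_Ioc, ENNReal.toReal_ofReal (by linarith)]
  unfold cdf
  linarith

theorem cdf_upper (x : ℝ) : volume.real (A ∩ Ioi x) = volume.real A - cdf A x := by
  have h1 : volume.real (A ∩ Iic x) + volume.real (A ∩ Ioi x) = volume.real A := by
    have h2 := measureReal_inter_add_sdiff (μ := volume) (s := A) (measurableSet_Iic (a := x))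
      hA.measure_lt_top.ne
    have h3 : A \ Iic x = A ∩ Ioi x := by
      rw [sdiff_eq, compl_Iic]
    rwa [h3] at h2
  unfold cdf
  linarith

theorem exists_point (hAs : A ⊆ Ioo (-(π / 2)) (π / 2)) {s : ℝ} (hs : 0 < s) (hsm : s < volume.real A) :
    ∃ α ∈ A, cdf A α = s := by
  have hcont : Continuous (cdf A) := by
    have : LipschitzWith 1 (cdf A) := by
      apply LipschitzWith.of_dist_le_mul
      intro x y
      rw [NNReal.coe_one, one_mul, Real.dist_eq, Real.dist_eq]
      rcases le_total x y with h | h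
      · rw [abs_sub_comm, abs_of_nonneg (sub_nonneg.2 (cdf_mono hA h)), abs_sub_comm,
          abs_of_nonneg (sub_nonneg.2 h)]
        linarith [cdf_lip hA h]
      · rw [abs_of_nonneg (sub_nonneg.2 (cdf_mono hA h)), abs_of_nonneg (sub_nonneg.2 h)]
        linarith [cdf_lip hA h]
    exact this.continuous
  set T : Set ℝ := {x | s ≤ cdf A x} with hT
  have hTc : IsClosed T := isClosed_le continuous_const hcont
  have hTn : T.Nonempty := by
    refine ⟨π / 2, ?_⟩
    show s ≤ cdf A (π / 2)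
    have : A ∩ Iic (π / 2) = A := inter_eq_left.2 fun z hz => (hAs hz).2.le
    unfold cdf
    rw [this]
    exact hsm.le
  have hTb : BddBelow T := by
    refine ⟨-(π / 2), fun x hx => ?_⟩
    by_contra hc
    push Not at hc
    have : A ∩ Iic x = ∅ := by
      rw [eq_empty_iff_forall_notMem]
      rintro z ⟨hz, hz'⟩
      have := (hAs hz).1
      have h3 : z ≤ x := hz'
      linarith
    have h2 : s ≤ cdf A x := hx
    unfold cdf at h2
    rw [this, measureReal_empty] at h2
    linarith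
  set α := sInf T with hα
  have hαT : α ∈ T := hTc.csInf_mem hTn hTb
  have hmin : ∀ x ∈ T, α ≤ x := fun x hx => csInf_le hTb hx
  have hval : cdf A α = s := by
    by_contra hne
    have hlt : s < cdf A α := lt_of_le_of_ne hαT (Ne.symm hne)
    have h1 := cdf_lip hA (x := α - (cdf A α - s)) (y := α) (by linarith)
    have h2 : α - (cdf A α - s) ∈ T := by
      show s ≤ cdf A (α - (cdf A α - s))
      linarith
    have := hmin _ h2
    linarith
  refine ⟨α, ?_, hval⟩
  by_contra hαA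
  have hopen : Aᶜ ∈ nhds α := hA.isClosed.isOpen_compl.mem_nhds hαA
  obtain ⟨ε, hε, hball⟩ := Metric.mem_nhds_iff.1 hopen
  have h1 : A ∩ Iic (α - ε / 2) = A ∩ Iic α := by
    apply Subset.antisymm
    · exact inter_subset_inter_right _ (Iic_subset_Iic.2 (by linarith))
    · rintro z ⟨hz, hz'⟩
      refine ⟨hz, ?_⟩
      by_contra hc
      have hc' : α - ε / 2 < z := not_le.1 hc
      have hz'' : z ≤ α := hz'
      apply hball _ hz
      rw [Metric.mem_ball, Real.dist_eq, abs_lt]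
      constructor <;> linarith
  have h2 : α - ε / 2 ∈ T := by
    show s ≤ cdf A (α - ε / 2)
    unfold cdf at hval ⊢
    rw [h1, hval]
  have := hmin _ h2
  linarith

end cdf

theorem real_lip {f : ℝ → ℝ} {S S' : Set ℝ} {K : ℝ≥0} (h : LipschitzOnWith K f S)
    (hsub : S' ⊆ f '' S) (hfin : volume S ≠ ⊤) : volume.real S' ≤ K * volume.real S := by
  have h1 : volume S' ≤ K * volume S := (measure_mono hsub).trans (lip_vol h)
  have h2 : (K : ℝ≥0∞) * volume S ≠ ⊤ := ENNReal.mul_ne_top ENNReal.coe_ne_top hfin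
  have h3 := ENNReal.toReal_mono h2 h1
  rw [ENNReal.toReal_mul, ENNReal.coe_toReal] at h3
  exact h3

theorem t_EQ : H72HR.S_EQ := by
  intro ρ σ h0 h1 h2 A B E hA hB hAs hBs c1 c2 c3 c4 hAB
  have hρ1 : ρ < 1 := h1.trans h2
  have hfA : volume A < ⊤ := hA.measure_lt_top
  have hm : volume.real A = volume.real B := by rw [measureReal_def, measureReal_def, hAB]
  set m := volume.real A with hmdef
  have hAm : volume A = ENNReal.ofReal m := by
    rw [hmdef, measureReal_def, ENNReal.ofReal_toReal hfA.ne]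
  set K : ℝ≥0 := ⟨(1 + ρ) / 2, by positivity⟩ with hK
  have hK1 : (K : ℝ) < 1 := by
    show (1 + ρ) / 2 < 1
    linarith
  have hVl : ∀ x y : ℝ, |Vr ρ x - Vr ρ y| ≤ ρ * |x - y| := lip_Vr h0 hρ1
  -- the distance of the points of the same level
  have close : ∀ s, 0 < s → s < m → ∀ α ∈ A, ∀ β ∈ B, cdf A α = s → cdf B β = s →
      |β - α| ≤ arccos ρ := by
    intro s hs hsm α hα β hβ ha hb
    rw [abs_le]
    constructor
    · -- `α - β ≤ arccos ρ`
      by_contra hc
      push Not at hc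
      set Φ : ℝ → ℝ := fun x => α - Vr ρ ((α - x) / 2) - (α - x) / 2 with hΦ
      have hlip : LipschitzOnWith K Φ (A ∩ Iic α) := by
        apply LipschitzWith.lipschitzOnWith
        apply LipschitzWith.of_dist_le_mul
        intro x y
        rw [Real.dist_eq, Real.dist_eq]
        have e : Φ x - Φ y = -(Vr ρ ((α - x) / 2) - Vr ρ ((α - y) / 2)) + (x - y) / 2 := by
          simp only [hΦ]
          ring
        rw [e]
        refine (abs_add_le _ _).trans ?_
        rw [abs_neg]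
        have h3 := hVl ((α - x) / 2) ((α - y) / 2)
        have e2 : |(α - x) / 2 - (α - y) / 2| = |x - y| / 2 := by
          have : (α - x) / 2 - (α - y) / 2 = -((x - y) / 2) := by ring
          rw [this, abs_neg, abs_div, abs_two]
        rw [e2] at h3
        rw [abs_div, abs_two]
        show _ ≤ (1 + ρ) / 2 * |x - y|
        linarith
      have hsub : B ∩ Iic β ⊆ Φ '' (A ∩ Iic α) := by
        rintro β' ⟨hβ', hle⟩
        have hle' : β' ≤ β := hle
        have g1 := (hAs hα).2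
        have g2 := (hBs hβ').1
        obtain ⟨u, hu, hu0, hux⟩ := far_exists h0 hρ1 (x := α - β') (by linarith) (by linarith)
        have h3 := c4 α hα β' hβ' u hu hux
        refine ⟨α - 2 * u, ⟨h3, ?_⟩, ?_⟩
        · show α - 2 * u ≤ α
          linarith
        · simp only [hΦ]
          have e : (α - (α - 2 * u)) / 2 = u := by ring
          rw [e]
          linarith
      have h3 := real_lip hlip hsub (fin_of hA _)
      have h4 : volume.real (B ∩ Iic β) = s := hb
      have h5 : volume.real (A ∩ Iic α) = s := ha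
      rw [h4, h5] at h3
      nlinarith
    · by_contra hc
      push Not at hc
      set Φ : ℝ → ℝ := fun x => α + Vr ρ ((x - α) / 2) + (x - α) / 2 with hΦ
      have hlip : LipschitzOnWith K Φ (A ∩ Ioi α) := by
        apply LipschitzWith.lipschitzOnWith
        apply LipschitzWith.of_dist_le_mul
        intro x y
        rw [Real.dist_eq, Real.dist_eq]
        have e : Φ x - Φ y = (Vr ρ ((x - α) / 2) - Vr ρ ((y - α) / 2)) + (x - y) / 2 := by
          simp only [hΦ]
          ring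
        rw [e]
        refine (abs_add_le _ _).trans ?_
        have h3 := hVl ((x - α) / 2) ((y - α) / 2)
        have e2 : |(x - α) / 2 - (y - α) / 2| = |x - y| / 2 := by
          have : (x - α) / 2 - (y - α) / 2 = (x - y) / 2 := by ring
          rw [this, abs_div, abs_two]
        rw [e2] at h3
        rw [abs_div, abs_two]
        show _ ≤ (1 + ρ) / 2 * |x - y|
        linarith
      have hsub : B ∩ Ioi β ⊆ Φ '' (A ∩ Ioi α) := by
        rintro β' ⟨hβ', hle⟩
        have hle' : β < β' := hle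
        have g1 := (hAs hα).1
        have g2 := (hBs hβ').2
        obtain ⟨u, hu, hu0, hux⟩ := far_exists h0 hρ1 (x := β' - α) (by linarith) (by linarith)
        have h3 := c3 α hα β' hβ' u hu hux
        refine ⟨α + 2 * u, ⟨h3, ?_⟩, ?_⟩
        · show α < α + 2 * u
          linarith
        · simp only [hΦ]
          have e : (α + 2 * u - α) / 2 = u := by ring
          rw [e]
          linarith
      have h3 := real_lip hlip hsub (fin_of hA _)
      rw [cdf_upper hA, cdf_upper hB, ha, hb, ← hm] at h3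
      nlinarith
  -- the points on the middle circle
  have hex : ∀ s, ∃ α β g : ℝ, 0 < s → s < m → α ∈ A ∧ β ∈ B ∧ cdf A α = s ∧ cdf B β = s ∧
      Rel ρ σ (β - α) g ∧ α + g ∈ E := by
    intro s
    by_cases hs : 0 < s ∧ s < m
    · obtain ⟨hs0, hsm⟩ := hs
      obtain ⟨α, hα, ha⟩ := exists_point hA hAs hs0 hsm
      obtain ⟨β, hβ, hb⟩ := exists_point hB hBs hs0 (hm ▸ hsm)
      obtain ⟨u, hu, hux⟩ := rel_exists h0 h1 h2 (close s hs0 hsm α hα β hβ ha hb)
      rcases le_total 0 (β - α) with h3 | h3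
      · rw [abs_of_nonneg h3] at hux
        exact ⟨α, β, Vr σ u - u, fun _ _ => ⟨hα, hβ, ha, hb, ⟨u, hu, Or.inl ⟨hux, rfl⟩⟩,
          c1 α hα β hβ u hu hux⟩⟩
      · rw [abs_of_nonpos h3] at hux
        refine ⟨α, β, -(Vr σ u - u), fun _ _ => ⟨hα, hβ, ha, hb, ⟨u, hu, Or.inr ⟨by linarith, rfl⟩⟩, ?_⟩⟩
        have := c2 α hα β hβ u hu (by linarith)
        rwa [← sub_eq_add_neg]
    · exact ⟨0, 0, 0, fun h3 h4 => absurd ⟨h3, h4⟩ hs⟩
  choose fα fβ fg hf using hex
  set γ : ℝ → ℝ := fun s => fα s + fg s with hγ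
  have hexp : ∀ s ∈ Ioo 0 m, ∀ s' ∈ Ioo 0 m, s < s' → s' - s ≤ γ s' - γ s := by
    intro s hs s' hs' hlt
    obtain ⟨a1, b1, ca1, cb1, r1, _⟩ := hf s hs.1 hs.2
    obtain ⟨a2, b2, ca2, cb2, r2, _⟩ := hf s' hs'.1 hs'.2
    have d1 : s' - s ≤ fα s' - fα s := by
      rcases le_total (fα s) (fα s') with h3 | h3
      · have := cdf_lip hA h3
        linarith
      · have := cdf_mono hA h3
        linarith
    have d2 : s' - s ≤ fβ s' - fβ s := by
      rcases le_total (fβ s) (fβ s') with h3 | h3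
      · have := cdf_lip hB h3
        linarith
      · have := cdf_mono hB h3
        linarith
    simp only [hγ]
    rcases le_total (fβ s - fα s) (fβ s' - fα s') with h3 | h3
    · have := (rel_mono h0 h1 h2 r1 r2 h3).1
      linarith
    · have := (rel_mono h0 h1 h2 r2 r1 h3).2
      linarith
  have habs : ∀ s ∈ Ioo 0 m, ∀ s' ∈ Ioo 0 m, |s' - s| ≤ |γ s' - γ s| := by
    intro s hs s' hs'
    rcases lt_trichotomy s s' with h3 | h3 | h3
    · have := hexp s hs s' hs' h3
      rw [abs_of_pos (by linarith), abs_of_pos (by linarith)]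
      exact this
    · rw [h3, sub_self, sub_self]
    · have := hexp s' hs' s hs h3
      rw [abs_of_neg (by linarith), abs_of_neg (by linarith)]
      linarith
  have hinj : InjOn γ (Ioo 0 m) := by
    intro s hs s' hs' h3
    have := habs s hs s' hs'
    rw [h3, sub_self, abs_zero] at this
    have := abs_eq_zero.1 (le_antisymm this (abs_nonneg _))
    linarith
  set δ := Function.invFunOn γ (Ioo 0 m) with hδ
  have hleft : ∀ s ∈ Ioo 0 m, δ (γ s) = s := fun s hs => hinj.leftInvOn_invFunOn hs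
  have hlipδ : LipschitzOnWith 1 δ (γ '' Ioo 0 m) := by
    apply LipschitzOnWith.of_dist_le_mul
    rintro _ ⟨s, hs, rfl⟩ _ ⟨s', hs', rfl⟩
    rw [hleft s hs, hleft s' hs', NNReal.coe_one, one_mul, Real.dist_eq, Real.dist_eq]
    exact habs s' hs' s hs
  have himg : δ '' (γ '' Ioo 0 m) = Ioo 0 m := by
    ext s
    constructor
    · rintro ⟨_, ⟨s', hs', rfl⟩, rfl⟩
      rw [hleft s' hs']
      exact hs'
    · intro hs
      exact ⟨γ s, ⟨s, hs, rfl⟩, hleft s hs⟩
  have hvol := lip_vol hlipδ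
  rw [himg, Real.volume_Ioo, sub_zero] at hvol
  rw [hAm]
  refine hvol.trans ?_
  rw [ENNReal.coe_one, one_mul]
  apply measure_mono
  rintro _ ⟨s, hs, rfl⟩
  exact (hf s hs.1 hs.2).2.2.2.2.2

end H55HR
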