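import Pool.Agent.E8helper72.HR.Stm

/-!
# Project HR: monomial groups (piece HR5)
-/

set_option autoImplicit false

open Set Real

namespace H55HR

section D

variable {W : Type} [AddCommGroup W] [Module ℝ W]

/-- an element of `H` that is diagonal on `a, b, e` -/
def D (H : Subgroup (W ≃ₗ[ℝ] W)) (a b e : W) (x y z : ℝ) : Prop :=
  ∃ L ∈ H, L a = x • a ∧ L b = y • b ∧ L e = z • e

variable {H : Subgroup (W ≃ₗ[ℝ] W)} {a b e : W}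

theorem D.mul {x y z x' y' z' : ℝ} (h : D H a b e x y z) (h' : D H a b e x' y' z') :
    D H a b e (x * x') (y * y') (z * z') := by
  obtain ⟨L, hL, h1, h2, h3⟩ := h
  obtain ⟨L', hL', h1', h2', h3'⟩ := h'
  refine ⟨L * L', H.mul_mem hL hL', ?_, ?_, ?_⟩
  · rw [LinearEquiv.mul_apply, h1', map_smul, h1, smul_smul, mul_comm]
  · rw [LinearEquiv.mul_apply, h2', map_smul, h2, smul_smul, mul_comm]
  · rw [LinearEquiv.mul_apply, h3', map_smul, h3, smul_smul, mul_comm]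

theorem inv_eig {L : W ≃ₗ[ℝ] W} {v w : W} {x : ℝ} (hx : x ≠ 0) (h : L v = x • w) :
    L⁻¹ w = x⁻¹ • v := by
  have h1 : w = x⁻¹ • L v := by rw [h, smul_smul, inv_mul_cancel₀ hx, one_smul]
  show L.symm w = x⁻¹ • v
  rw [h1, ← map_smul, LinearEquiv.symm_apply_apply]

theorem D.inv {x y z : ℝ} (h : D H a b e x y z) (hx : x ≠ 0) (hy : y ≠ 0) (hz : z ≠ 0) :
    D H a b e x⁻¹ y⁻¹ z⁻¹ := by
  obtain ⟨L, hL, h1, h2, h3⟩ := h
  exact ⟨L⁻¹, H.inv_mem hL, inv_eig hx h1, inv_eig hy h2, inv_eig hz h3⟩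

theorem D.one : D H a b e 1 1 1 :=
  ⟨1, H.one_mem, by rw [one_smul]; rfl, by rw [one_smul]; rfl, by rw [one_smul]; rfl⟩

theorem D.pow {x y z : ℝ} (h : D H a b e x y z) (n : ℕ) : D H a b e (x ^ n) (y ^ n) (z ^ n) := by
  induction n with
  | zero => simpa using D.one
  | succ n ih =>
    rw [pow_succ, pow_succ, pow_succ]
    exact ih.mul h

theorem D.zpow {x y z : ℝ} (h : D H a b e x y z) (hx : x ≠ 0) (hy : y ≠ 0) (hz : z ≠ 0) (n : ℤ) :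
    D H a b e (x ^ n) (y ^ n) (z ^ n) := by
  obtain ⟨k, rfl | rfl⟩ := n.eq_nat_or_neg
  · simpa only [zpow_natCast] using h.pow k
  · simpa only [zpow_neg, zpow_natCast] using
      (h.pow k).inv (pow_ne_zero _ hx) (pow_ne_zero _ hy) (pow_ne_zero _ hz)

/-- conjugation moves eigenvectors -/
theorem conj_eig {M L : W ≃ₗ[ℝ] W} {v w : W} {p x : ℝ} (hp : p ≠ 0) (hM : M v = p • w)
    (hL : L v = x • v) : (M * L * M⁻¹) w = x • w := by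
  rw [LinearEquiv.mul_apply, LinearEquiv.mul_apply, inv_eig hp hM, map_smul, hL, map_smul, map_smul,
    hM, smul_smul, smul_smul]
  congr 1
  field_simp

theorem caseA {M₁ M₂ : W ≃ₗ[ℝ] W} (h₁ : M₁ ∈ H) (h₂ : M₂ ∈ H) {c s t p q : ℝ} (hc : 0 < c)
    (hs : s = 1 ∨ s = -1) (ht : t ≠ 0) (hp : p ≠ 0) (hq : q ≠ 0) (e1 : M₁ a = s • e)
    (e2 : M₁ e = (s * c) • a) (e3 : M₁ b = (s * c) • b) (f1 : M₂ b = t • e)
    (f2 : (M₂ e = q • b ∧ M₂ a = p • a) ∨ (M₂ e = q • a ∧ M₂ a = p • b)) :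
    D H a b e (c ^ 2) (c ^ 2) 1 := by
  have hss : s * s = 1 := by rcases hs with rfl | rfl <;> norm_num
  have hs0 : s ≠ 0 := by rcases hs with rfl | rfl <;> norm_num
  have hc0 : c ≠ 0 := hc.ne'
  have hsc : s * c ≠ 0 := mul_ne_zero hs0 hc0
  -- the square
  have q1 : (M₁ * M₁) a = c • a := by
    rw [LinearEquiv.mul_apply, e1, map_smul, e2, smul_smul, ← mul_assoc, hss, one_mul]
  have q2 : (M₁ * M₁) b = (c ^ 2) • b := by
    rw [LinearEquiv.mul_apply, e3, map_smul, e3, smul_smul]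
    congr 1
    linear_combination c ^ 2 * hss
  have q3 : (M₁ * M₁) e = c • e := by
    rw [LinearEquiv.mul_apply, e2, map_smul, e1, smul_smul]
    congr 1
    linear_combination c * hss
  have d1 : D H a b e c (c ^ 2) c := ⟨M₁ * M₁, H.mul_mem h₁ h₁, q1, q2, q3⟩
  -- conjugate by `M₂`
  have d2 : ∃ L ∈ H, L a = c • a ∧ L b = c • b ∧ L e = (c ^ 2) • e := by
    refine ⟨M₂ * (M₁ * M₁) * M₂⁻¹, H.mul_mem (H.mul_mem h₂ (H.mul_mem h₁ h₁)) (H.inv_mem h₂), ?_⟩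
    rcases f2 with ⟨f2, f3⟩ | ⟨f2, f3⟩
    · exact ⟨conj_eig hp f3 q1, conj_eig hq f2 q3, conj_eig ht f1 q2⟩
    · exact ⟨conj_eig hq f2 q3, conj_eig hp f3 q1, conj_eig ht f1 q2⟩
  -- conjugate by `M₁`
  obtain ⟨L, hL, l1, l2, l3⟩ := d2
  have d3 : D H a b e (c ^ 2) c c :=
    ⟨M₁ * L * M₁⁻¹, H.mul_mem (H.mul_mem h₁ hL) (H.inv_mem h₁), conj_eig hsc e2 l3,
      conj_eig hsc e3 l2, conj_eig hs0 e1 l1⟩
  have d2' : D H a b e c c (c ^ 2) := ⟨L, hL, l1, l2, l3⟩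
  have d4 := (d3.mul d1).mul (d2'.inv hc0 hc0 (pow_ne_zero _ hc0))
  have e5 : c ^ 2 * c * c⁻¹ = c ^ 2 := by field_simp
  have e6 : c * c ^ 2 * c⁻¹ = c ^ 2 := by field_simp
  have e7 : c * c * (c ^ 2)⁻¹ = 1 := by field_simp
  rwa [e5, e6, e7] at d4

theorem finish {c : ℝ} (hc : 0 < c) (hc1 : c ≠ 1) (h : D H a b e (c ^ 2) (c ^ 2) 1) :
    ∃ L ∈ H, ∃ x y s : ℝ, |x| < 1 ∧ |y| < 1 ∧ |s| = 1 ∧ L a = x • a ∧ L b = y • b ∧ L e = s • e := by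
  rcases lt_or_gt_of_ne hc1 with h1 | h1
  · obtain ⟨L, hL, l1, l2, l3⟩ := h
    have h2 : |c ^ 2| < 1 := by
      rw [abs_of_pos (by positivity)]
      nlinarith
    exact ⟨L, hL, c ^ 2, c ^ 2, 1, h2, h2, abs_one, l1, l2, l3⟩
  · obtain ⟨L, hL, l1, l2, l3⟩ := h.inv (by positivity) (by positivity) one_ne_zero
    have h2 : |(c ^ 2)⁻¹| < 1 := by
      rw [abs_of_pos (by positivity)]
      apply inv_lt_one_of_one_lt₀
      nlinarith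
    refine ⟨L, hL, (c ^ 2)⁻¹, (c ^ 2)⁻¹, 1⁻¹, h2, h2, by norm_num, l1, l2, l3⟩

end D

/-- integer combinations of two independent vectors enter the negative quadrant -/
theorem exists_int {p q r t : ℝ} (h : 0 < p * t - q * r) :
    ∃ n m : ℤ, n * p + m * r < 0 ∧ n * q + m * t < 0 := by
  set Δ := p * t - q * r with hΔ
  set x := (r - t) / Δ with hx
  set y := (q - p) / Δ with hy
  have e1 : x * p + y * r = -1 := by
    rw [hx, hy]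
    field_simp
    rw [hΔ]
    ring
  have e2 : x * q + y * t = -1 := by
    rw [hx, hy]
    field_simp
    rw [hΔ]
    ring
  obtain ⟨N, hN⟩ := exists_nat_gt (|p| + |q| + |r| + |t|)
  have hb : ∀ w : ℝ, |(⌊w⌋ : ℝ) - w| ≤ 1 := by
    intro w
    rw [abs_le]
    have h1 := Int.floor_le w
    have h2 := Int.lt_floor_add_one w
    constructor <;> linarith
  refine ⟨⌊N * x⌋, ⌊N * y⌋, ?_, ?_⟩
  · have h1 : (⌊N * x⌋ : ℝ) * p + (⌊N * y⌋ : ℝ) * r =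
        -N + (((⌊N * x⌋ : ℝ) - N * x) * p + ((⌊N * y⌋ : ℝ) - N * y) * r) := by
      linear_combination (N : ℝ) * e1
    have h2 : ((⌊N * x⌋ : ℝ) - N * x) * p ≤ |p| := by
      refine (le_abs_self _).trans ?_
      rw [abs_mul]
      exact mul_le_of_le_one_left (abs_nonneg _) (hb _)
    have h3 : ((⌊N * y⌋ : ℝ) - N * y) * r ≤ |r| := by
      refine (le_abs_self _).trans ?_
      rw [abs_mul]
      exact mul_le_of_le_one_left (abs_nonneg _) (hb _)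
    have h4 := abs_nonneg q
    have h5 := abs_nonneg t
    rw [h1]
    linarith
  · have h1 : (⌊N * x⌋ : ℝ) * q + (⌊N * y⌋ : ℝ) * t =
        -N + (((⌊N * x⌋ : ℝ) - N * x) * q + ((⌊N * y⌋ : ℝ) - N * y) * t) := by
      linear_combination (N : ℝ) * e2
    have h2 : ((⌊N * x⌋ : ℝ) - N * x) * q ≤ |q| := by
      refine (le_abs_self _).trans ?_
      rw [abs_mul]
      exact mul_le_of_le_one_left (abs_nonneg _) (hb _)
    have h3 : ((⌊N * y⌋ : ℝ) - N * y) * t ≤ |t| := by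
      refine (le_abs_self _).trans ?_
      rw [abs_mul]
      exact mul_le_of_le_one_left (abs_nonneg _) (hb _)
    have h4 := abs_nonneg p
    have h5 := abs_nonneg r
    rw [h1]
    linarith

theorem abs_sgn_zpow {s : ℝ} (hs : s = 1 ∨ s = -1) (n : ℤ) : |s ^ n| = 1 := by
  rw [abs_zpow]
  rcases hs with rfl | rfl <;> simp

theorem oct : H72HR.S_OCT := by
  intro W _ _ a b e H M₁ M₂ h₁ h₂ c₁ c₂ s₁ s₂ hc₁ hc₂ hc₁1 hc₂1 hne hs₁ hs₂ m1 m1' m2 m2'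
  have hs₁0 : s₁ ≠ 0 := by rcases hs₁ with rfl | rfl <;> norm_num
  have hs₂0 : s₂ ≠ 0 := by rcases hs₂ with rfl | rfl <;> norm_num
  have hss₁ : s₁ * s₁ = 1 := by rcases hs₁ with rfl | rfl <;> norm_num
  have hss₂ : s₂ * s₂ = 1 := by rcases hs₂ with rfl | rfl <;> norm_num
  have hsc₁ : s₁ * c₁ ≠ 0 := mul_ne_zero hs₁0 hc₁.ne'
  have hsc₂ : s₂ * c₂ ≠ 0 := mul_ne_zero hs₂0 hc₂.ne'
  by_cases hA : M₁ e = (s₁ * c₁) • a ∧ M₁ b = (s₁ * c₁) • b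
  · exact finish hc₁ hc₁1 (caseA h₁ h₂ hc₁ hs₁ hs₂0 hsc₂ hsc₂ m1 hA.1 hA.2 m2 m2')
  by_cases hB : M₂ e = (s₂ * c₂) • b ∧ M₂ a = (s₂ * c₂) • a
  · have h3 := caseA (a := b) (b := a) h₂ h₁ hc₂ hs₂ hs₁0 hsc₁ hsc₁ m2 hB.1 hB.2 m1 m1'
    obtain ⟨L, hL, l1, l2, l3⟩ := h3
    exact finish hc₂ hc₂1 ⟨L, hL, l2, l1, l3⟩
  obtain ⟨x2, x3⟩ := m1'.resolve_left hA
  obtain ⟨y2, y3⟩ := m2'.resolve_left hB
  -- `X = M₁ M₂`
  have X1 : (M₁ * M₂) a = (s₁ * s₂ * (c₁ * c₂)) • a := by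
    rw [LinearEquiv.mul_apply, y3, map_smul, x3, smul_smul]
    congr 1
    ring
  have X2 : (M₁ * M₂) b = (s₁ * s₂ * c₁) • b := by
    rw [LinearEquiv.mul_apply, m2, map_smul, x2, smul_smul]
    congr 1
    ring
  have X3 : (M₁ * M₂) e = (s₁ * s₂ * c₂) • e := by
    rw [LinearEquiv.mul_apply, y2, map_smul, m1, smul_smul]
    congr 1
    ring
  have dX : D H a b e (s₁ * s₂ * (c₁ * c₂)) (s₁ * s₂ * c₁) (s₁ * s₂ * c₂) :=
    ⟨M₁ * M₂, H.mul_mem h₁ h₂, X1, X2, X3⟩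
  have dY : D H a b e (s₁ * s₂ * c₁) (s₁ * s₂ * c₂) (s₁ * s₂ * (c₁ * c₂)) :=
    ⟨M₁ * (M₁ * M₂) * M₁⁻¹, H.mul_mem (H.mul_mem h₁ (H.mul_mem h₁ h₂)) (H.inv_mem h₁),
      conj_eig hsc₁ x3 X2, conj_eig hsc₁ x2 X3, conj_eig hs₁0 m1 X1⟩
  have d1 : D H a b e (s₁ * c₁ ^ 2) (s₁ * c₁ ^ 2) (s₁ * c₁ ^ 2) := by
    refine ⟨M₁ * (M₁ * M₁), H.mul_mem h₁ (H.mul_mem h₁ h₁), ?_, ?_, ?_⟩
    · rw [LinearEquiv.mul_apply, LinearEquiv.mul_apply, m1, map_smul, x2, map_smul, map_smul, x3,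
        smul_smul, smul_smul]
      congr 1
      linear_combination s₁ * c₁ ^ 2 * hss₁
    · rw [LinearEquiv.mul_apply, LinearEquiv.mul_apply, x3, map_smul, m1, map_smul, map_smul, x2,
        smul_smul, smul_smul]
      congr 1
      linear_combination s₁ * c₁ ^ 2 * hss₁
    · rw [LinearEquiv.mul_apply, LinearEquiv.mul_apply, x2, map_smul, x3, map_smul, map_smul, m1,
        smul_smul, smul_smul]
      congr 1
      linear_combination s₁ * c₁ ^ 2 * hss₁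
  have d2 : D H a b e (s₂ * c₂ ^ 2) (s₂ * c₂ ^ 2) (s₂ * c₂ ^ 2) := by
    refine ⟨M₂ * (M₂ * M₂), H.mul_mem h₂ (H.mul_mem h₂ h₂), ?_, ?_, ?_⟩
    · rw [LinearEquiv.mul_apply, LinearEquiv.mul_apply, y3, map_smul, m2, map_smul, map_smul, y2,
        smul_smul, smul_smul]
      congr 1
      linear_combination s₂ * c₂ ^ 2 * hss₂
    · rw [LinearEquiv.mul_apply, LinearEquiv.mul_apply, m2, map_smul, y2, map_smul, map_smul, y3,
        smul_smul, smul_smul]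
      congr 1
      linear_combination s₂ * c₂ ^ 2 * hss₂
    · rw [LinearEquiv.mul_apply, LinearEquiv.mul_apply, y2, map_smul, y3, map_smul, map_smul, m2,
        smul_smul, smul_smul]
      congr 1
      linear_combination s₂ * c₂ ^ 2 * hss₂
  have n1 : s₁ * c₁ ^ 2 ≠ 0 := mul_ne_zero hs₁0 (by positivity)
  have n2 : s₂ * c₂ ^ 2 ≠ 0 := mul_ne_zero hs₂0 (by positivity)
  have hs12 : (s₁ * s₂) * (s₁ * s₂) = 1 := by linear_combination hss₁ * (s₂ * s₂) + hss₂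
  have dV1 : D H a b e (s₂ * c₁ ^ 2) (s₂ * (c₁ ^ 2 / c₂ ^ 2)) s₂ := by
    have h := (dX.pow 2).mul (d2.inv n2 n2 n2)
    have i2 : (s₂ * c₂ ^ 2)⁻¹ = s₂ * (c₂ ^ 2)⁻¹ := by
      rw [mul_inv]
      congr 1
      exact inv_eq_of_mul_eq_one_left hss₂
    have k1 : (s₁ * s₂ * (c₁ * c₂)) ^ 2 * (s₂ * c₂ ^ 2)⁻¹ = s₂ * c₁ ^ 2 := by
      rw [i2]
      have : (s₁ * s₂ * (c₁ * c₂)) ^ 2 * (s₂ * (c₂ ^ 2)⁻¹) =
          (s₁ * s₂) * (s₁ * s₂) * (s₂ * c₁ ^ 2) * (c₂ ^ 2 * (c₂ ^ 2)⁻¹) := by ring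
      rw [this, hs12, mul_inv_cancel₀ (by positivity)]
      ring
    have k2 : (s₁ * s₂ * c₁) ^ 2 * (s₂ * c₂ ^ 2)⁻¹ = s₂ * (c₁ ^ 2 / c₂ ^ 2) := by
      rw [i2]
      have : (s₁ * s₂ * c₁) ^ 2 * (s₂ * (c₂ ^ 2)⁻¹) =
          (s₁ * s₂) * (s₁ * s₂) * (s₂ * (c₁ ^ 2 * (c₂ ^ 2)⁻¹)) := by ring
      rw [this, hs12]
      ring
    have k3 : (s₁ * s₂ * c₂) ^ 2 * (s₂ * c₂ ^ 2)⁻¹ = s₂ := by
      rw [i2]
      have : (s₁ * s₂ * c₂) ^ 2 * (s₂ * (c₂ ^ 2)⁻¹) =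
          (s₁ * s₂) * (s₁ * s₂) * s₂ * (c₂ ^ 2 * (c₂ ^ 2)⁻¹) := by ring
      rw [this, hs12, mul_inv_cancel₀ (by positivity)]
      ring
    rwa [k1, k2, k3] at h
  have dV2 : D H a b e (s₁ * s₂ * c₂ ^ 2) (s₁ * s₂ * c₁ ^ 2) (s₁ * s₂) := by
    have hs120 : s₁ * s₂ ≠ 0 := mul_ne_zero hs₁0 hs₂0
    have h := (((dY.pow 2).inv (pow_ne_zero _ (mul_ne_zero hs120 hc₁.ne'))
      (pow_ne_zero _ (mul_ne_zero hs120 hc₂.ne'))
      (pow_ne_zero _ (mul_ne_zero hs120 (mul_ne_zero hc₁.ne' hc₂.ne')))).mul d1).mul d2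
    have g1 : (s₁ * s₂ * c₁) ^ 2 = c₁ ^ 2 := by linear_combination c₁ ^ 2 * hs12
    have g2 : (s₁ * s₂ * c₂) ^ 2 = c₂ ^ 2 := by linear_combination c₂ ^ 2 * hs12
    have g3 : (s₁ * s₂ * (c₁ * c₂)) ^ 2 = (c₁ * c₂) ^ 2 := by
      linear_combination (c₁ * c₂) ^ 2 * hs12
    have k1 : ((s₁ * s₂ * c₁) ^ 2)⁻¹ * (s₁ * c₁ ^ 2) * (s₂ * c₂ ^ 2) = s₁ * s₂ * c₂ ^ 2 := by
      rw [g1]
      field_simp
    have k2 : ((s₁ * s₂ * c₂) ^ 2)⁻¹ * (s₁ * c₁ ^ 2) * (s₂ * c₂ ^ 2) = s₁ * s₂ * c₁ ^ 2 := by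
      rw [g2]
      field_simp
    have k3 : ((s₁ * s₂ * (c₁ * c₂)) ^ 2)⁻¹ * (s₁ * c₁ ^ 2) * (s₂ * c₂ ^ 2) = s₁ * s₂ := by
      rw [g3]
      field_simp
    rwa [k1, k2, k3] at h
  -- logarithms
  set α := Real.log c₁ with hα
  set β := Real.log c₂ with hβ
  have hα0 : α ≠ 0 := by
    rw [hα]
    exact Real.log_ne_zero_of_pos_of_ne_one hc₁ hc₁1
  have hdet : 0 < (2 * α) * (2 * α) - (2 * α - 2 * β) * (2 * β) := by
    nlinarith [sq_nonneg (α - 2 * β), sq_pos_of_ne_zero hα0]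
  obtain ⟨n, m, hn1, hn2⟩ := exists_int hdet
  have hs12' : s₁ * s₂ = 1 ∨ s₁ * s₂ = -1 := by
    rcases hs₁ with rfl | rfl <;> rcases hs₂ with rfl | rfl <;> norm_num
  have hs120 : s₁ * s₂ ≠ 0 := mul_ne_zero hs₁0 hs₂0
  have dL := (dV1.zpow (mul_ne_zero hs₂0 (by positivity)) (mul_ne_zero hs₂0 (by positivity)) hs₂0 n).mul
    (dV2.zpow (mul_ne_zero hs120 (by positivity)) (mul_ne_zero hs120 (by positivity)) hs120 m)
  obtain ⟨L, hL, l1, l2, l3⟩ := dL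
  have hexp : ∀ (c : ℝ), 0 < c → ∀ k : ℤ, c ^ k = Real.exp (k * Real.log c) := by
    intro c hc k
    rw [mul_comm, ← Real.rpow_def_of_pos hc, Real.rpow_intCast]
  refine ⟨L, hL, _, _, _, ?_, ?_, ?_, l1, l2, l3⟩
  · rw [mul_zpow, mul_zpow, abs_mul, abs_mul, abs_mul, abs_sgn_zpow hs₂, abs_sgn_zpow hs12', one_mul,
      one_mul, abs_of_pos (by positivity), abs_of_pos (by positivity), hexp _ (by positivity),
      hexp _ (by positivity), Real.log_pow, Real.log_pow, ← Real.exp_add, Real.exp_lt_one_iff]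
    push_cast
    rw [← hα, ← hβ]
    exact hn1
  · rw [mul_zpow, mul_zpow, abs_mul, abs_mul, abs_mul, abs_sgn_zpow hs₂, abs_sgn_zpow hs12', one_mul,
      one_mul, abs_of_pos (by positivity), abs_of_pos (by positivity), hexp _ (by positivity),
      hexp _ (by positivity), Real.log_div (by positivity) (by positivity), Real.log_pow, Real.log_pow,
      ← Real.exp_add, Real.exp_lt_one_iff]
    push_cast
    rw [← hα, ← hβ]
    exact hn2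
  · rw [abs_mul, abs_sgn_zpow hs₂, abs_sgn_zpow hs12', one_mul]

end H55HR
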